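import Pool.Agent.KDT.StmtsJ

/-!
# KDT, block Z, row IML: products of the ideals `MI f A B`

The Bezout argument is the one of helper21 (`Helper21_SZT/MII.lean`).
-/

set_option autoImplicit false

namespace Pool.Agent.KDT.H37

open Polynomial H58Q Pool.Agent.SZT Pool.Agent.KDT.Z

namespace Iml

theorem bezout {K : Type} [Field K] {f A A' B : K[X]} (h2 : (2 : K) ≠ 0) (hf : Squarefree f)
    (h : B ^ 2 - f = A * A') : ∃ a b c : K[X], a * A + b * A' + c * (2 * B) = 1 := by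
  let I : Ideal K[X] := Ideal.span {A, A', 2 * B}
  obtain ⟨p, hp⟩ : ∃ p : K[X], I = Ideal.span {p} :=
    ⟨Submodule.IsPrincipal.generator I, (Ideal.span_singleton_generator I).symm⟩
  have hdvd : ∀ q ∈ I, p ∣ q := by
    intro q hq
    rw [hp, Ideal.mem_span_singleton] at hq
    exact hq
  have hA : p ∣ A := hdvd A (Ideal.subset_span (by simp))
  have hA' : p ∣ A' := hdvd A' (Ideal.subset_span (by simp))
  have h2B : p ∣ 2 * B := hdvd (2 * B) (Ideal.subset_span (by simp))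
  have hB : p ∣ B := by
    have h3 : (C (2 : K)⁻¹ : K[X]) * (2 * B) = B := by
      have h4 : (2 : K[X]) = C (2 : K) := by
        rw [map_ofNat]
      rw [h4, ← mul_assoc, ← C_mul, inv_mul_cancel₀ h2, C_1, one_mul]
    rw [← h3]
    exact h2B.mul_left _
  have hpp : p * p ∣ f := by
    have h3 : f = B * B - A * A' := by
      rw [← h]
      ring
    rw [h3]
    exact dvd_sub (mul_dvd_mul hB hB) (mul_dvd_mul hA hA')
  have hu : IsUnit p := hf p hpp
  have h1 : (1 : K[X]) ∈ I := by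
    rw [hp, Ideal.mem_span_singleton]
    exact hu.dvd
  obtain ⟨a, z, hz, h1⟩ := Ideal.mem_span_insert.1 h1
  obtain ⟨b, c, rfl⟩ := Ideal.mem_span_pair.1 hz
  exact ⟨a, b, c, by rw [h1]; ring⟩

theorem mi_le {F : Type} [Field F] {f A B L : F[X]} (h : A ∣ L - B) : MI f A L ≤ MI f A B := by
  obtain ⟨e, he⟩ := h
  unfold MI
  rw [Ideal.span_le, Set.insert_subset_iff, Set.singleton_subset_iff]
  refine ⟨Ideal.subset_span (by simp), ?_⟩
  have h1 : (⟨-L, 1⟩ : Q F f) = ⟨-B, 1⟩ - ⟨e, 0⟩ * ⟨A, 0⟩ := by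
    apply QuadraticAlgebra.ext
    · simp only [QuadraticAlgebra.re_mul, QuadraticAlgebra.re_sub]
      linear_combination -he
    · simp only [QuadraticAlgebra.im_mul, QuadraticAlgebra.im_sub]
      ring
  rw [h1]
  exact Ideal.sub_mem _ (Ideal.subset_span (by simp))
    (Ideal.mul_mem_left _ _ (Ideal.subset_span (by simp)))

theorem mi_eq {F : Type} [Field F] {f A B L : F[X]} (h : A ∣ L - B) : MI f A L = MI f A B :=
  le_antisymm (mi_le h) (mi_le (by rw [← neg_sub]; exact (dvd_neg).2 h))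

theorem mul_cop {F : Type} [Field F] {f A1 A2 L : F[X]} (hc : IsCoprime A1 A2) :
    MI f A1 L * MI f A2 L = MI f (A1 * A2) L := by
  obtain ⟨u, v, huv⟩ := hc
  apply le_antisymm
  · unfold MI
    rw [Ideal.span_pair_mul_span_pair, Ideal.span_le, Set.insert_subset_iff,
      Set.insert_subset_iff, Set.insert_subset_iff, Set.singleton_subset_iff]
    refine ⟨?_, Ideal.mul_mem_left _ _ (Ideal.subset_span (by simp)),
      Ideal.mul_mem_right _ _ (Ideal.subset_span (by simp)),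
      Ideal.mul_mem_left _ _ (Ideal.subset_span (by simp))⟩
    have h1 : (⟨A1, 0⟩ : Q F f) * ⟨A2, 0⟩ = ⟨A1 * A2, 0⟩ := by
      apply QuadraticAlgebra.ext
      · simp only [QuadraticAlgebra.re_mul]
        ring
      · simp only [QuadraticAlgebra.im_mul]
        ring
    rw [h1]
    exact Ideal.subset_span (by simp)
  · have h1 : (⟨A1, 0⟩ : Q F f) * ⟨A2, 0⟩ ∈ MI f A1 L * MI f A2 L :=
      Ideal.mul_mem_mul (Ideal.subset_span (by simp)) (Ideal.subset_span (by simp))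
    have h2 : (⟨A1, 0⟩ : Q F f) * ⟨-L, 1⟩ ∈ MI f A1 L * MI f A2 L :=
      Ideal.mul_mem_mul (Ideal.subset_span (by simp)) (Ideal.subset_span (by simp))
    have h3 : (⟨-L, 1⟩ : Q F f) * ⟨A2, 0⟩ ∈ MI f A1 L * MI f A2 L :=
      Ideal.mul_mem_mul (Ideal.subset_span (by simp)) (Ideal.subset_span (by simp))
    have e1 : (⟨A1 * A2, 0⟩ : Q F f) = ⟨A1, 0⟩ * ⟨A2, 0⟩ := by
      apply QuadraticAlgebra.ext
      · simp only [QuadraticAlgebra.re_mul]
        ring
      · simp only [QuadraticAlgebra.im_mul]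
        ring
    have e2 : (⟨-L, 1⟩ : Q F f) = ⟨u, 0⟩ * (⟨A1, 0⟩ * ⟨-L, 1⟩) + ⟨v, 0⟩ * (⟨-L, 1⟩ * ⟨A2, 0⟩) := by
      apply QuadraticAlgebra.ext
      · simp only [QuadraticAlgebra.re_mul, QuadraticAlgebra.im_mul, QuadraticAlgebra.re_add]
        linear_combination L * huv
      · simp only [QuadraticAlgebra.re_mul, QuadraticAlgebra.im_mul, QuadraticAlgebra.im_add]
        linear_combination -huv
    rw [MI.eq_def f (A1 * A2) L, Ideal.span_le, Set.insert_subset_iff, Set.singleton_subset_iff]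
    refine ⟨?_, ?_⟩
    · rw [e1]
      exact h1
    · rw [e2]
      exact Ideal.add_mem _ (Ideal.mul_mem_left _ _ h2) (Ideal.mul_mem_left _ _ h3)

theorem mul_prin {F : Type} [Field F] {f L A A' : F[X]} {c : F} (h2 : (2 : F) ≠ 0)
    (hf : Squarefree f) (hc : c ≠ 0) (h : L ^ 2 - f = C c * (A * A')) :
    MI f A L * MI f A' L = Ideal.span {(⟨-L, 1⟩ : Q F f)} := by
  have hcc : (C c⁻¹ : F[X]) * C c = 1 := by
    rw [← C_mul, inv_mul_cancel₀ hc, C_1]
  apply le_antisymm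
  · unfold MI
    rw [Ideal.span_pair_mul_span_pair, Ideal.span_le, Set.insert_subset_iff,
      Set.insert_subset_iff, Set.insert_subset_iff, Set.singleton_subset_iff]
    refine ⟨?_, Ideal.mul_mem_left _ _ (Ideal.mem_span_singleton_self _),
      Ideal.mul_mem_right _ _ (Ideal.mem_span_singleton_self _),
      Ideal.mul_mem_left _ _ (Ideal.mem_span_singleton_self _)⟩
    have h1 : (⟨A, 0⟩ : Q F f) * ⟨A', 0⟩ = ⟨-C c⁻¹ * L, -C c⁻¹⟩ * ⟨-L, 1⟩ := by
      apply QuadraticAlgebra.ext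
      · simp only [QuadraticAlgebra.re_mul]
        linear_combination (-(A * A')) * hcc - C c⁻¹ * h
      · simp only [QuadraticAlgebra.im_mul]
        ring
    rw [h1]
    exact Ideal.mul_mem_left _ _ (Ideal.mem_span_singleton_self _)
  · rw [Ideal.span_singleton_le_iff_mem]
    obtain ⟨a, b, d, hb⟩ := bezout (A := A) (A' := C c * A') (B := L) h2 hf
      (by rw [h]; ring)
    have hAA : (⟨A, 0⟩ : Q F f) * ⟨A', 0⟩ ∈ MI f A L * MI f A' L :=
      Ideal.mul_mem_mul (Ideal.subset_span (by simp)) (Ideal.subset_span (by simp))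
    have hAy : (⟨A, 0⟩ : Q F f) * ⟨-L, 1⟩ ∈ MI f A L * MI f A' L :=
      Ideal.mul_mem_mul (Ideal.subset_span (by simp)) (Ideal.subset_span (by simp))
    have hyA : (⟨-L, 1⟩ : Q F f) * ⟨A', 0⟩ ∈ MI f A L * MI f A' L :=
      Ideal.mul_mem_mul (Ideal.subset_span (by simp)) (Ideal.subset_span (by simp))
    have hyy : (⟨-L, 1⟩ : Q F f) * ⟨-L, 1⟩ ∈ MI f A L * MI f A' L :=
      Ideal.mul_mem_mul (Ideal.subset_span (by simp)) (Ideal.subset_span (by simp))
    have h3 : (⟨-L, 1⟩ : Q F f) = ⟨a, 0⟩ * (⟨A, 0⟩ * ⟨-L, 1⟩) +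
        (⟨b * C c, 0⟩ * (⟨-L, 1⟩ * ⟨A', 0⟩) +
          (⟨-d, 0⟩ * (⟨-L, 1⟩ * ⟨-L, 1⟩) + ⟨-(d * C c), 0⟩ * (⟨A, 0⟩ * ⟨A', 0⟩))) := by
      apply QuadraticAlgebra.ext
      · simp only [QuadraticAlgebra.re_mul, QuadraticAlgebra.im_mul, QuadraticAlgebra.re_add]
        linear_combination L * hb - d * h
      · simp only [QuadraticAlgebra.re_mul, QuadraticAlgebra.im_mul, QuadraticAlgebra.im_add]
        linear_combination -hb
    rw [h3]
    exact Ideal.add_mem _ (Ideal.mul_mem_left _ _ hAy) (Ideal.add_mem _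
      (Ideal.mul_mem_left _ _ hyA) (Ideal.add_mem _ (Ideal.mul_mem_left _ _ hyy)
        (Ideal.mul_mem_left _ _ hAA)))

end Iml

/-- **Row IML.** -/
theorem ziml : ImlStatement := by
  refine ⟨?_, ?_, ?_⟩
  · intro F _ f L A A' c h2 hf hc h
    exact Iml.mul_prin h2 hf hc h
  · intro F _ f A1 B1 A2 B2 L hc _ _ h1 h2
    rw [← Iml.mi_eq h1, ← Iml.mi_eq h2]
    exact Iml.mul_cop hc
  · intro F _ f A B L h
    exact Iml.mi_eq h

end Pool.Agent.KDT.H37
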