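import Pool.Agent.KDT.StmtsJ

/-!
# KDT, block Z, row JGA: the points of the curve in the class group
-/

set_option autoImplicit false

namespace Pool.Agent.KDT.H37

open Polynomial H58Q Pool.Agent.SZT Pool.Agent.KDT.Z

namespace Jga

section cl

variable {F : Type} [Field F] (f : F[X]) [Fact (Odd f.natDegree)] [IsDedekindDomain (Q F f)]

theorem mi_ne (A B : F[X]) : MI f A B ≠ ⊥ := by
  intro h
  have h1 : (⟨-B, 1⟩ : Q F f) ∈ MI f A B := Ideal.subset_span (by simp)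
  rw [h, Ideal.mem_bot] at h1
  have h2 := congrArg QuadraticAlgebra.im h1
  simp at h2

theorem mem_nzd {I : Ideal (Q F f)} (h : I ≠ ⊥) : I ∈ nonZeroDivisors (Ideal (Q F f)) :=
  mem_nonZeroDivisors_of_ne_zero h

theorem clI_eq {I : Ideal (Q F f)} (h : I ≠ ⊥) :
    clI f I = Additive.ofMul (ClassGroup.mk0 ⟨I, mem_nzd f h⟩) := by
  unfold clI
  rw [dif_pos (mem_nzd f h)]

theorem clI_mul {I J : Ideal (Q F f)} (hI : I ≠ ⊥) (hJ : J ≠ ⊥) :
    clI f (I * J) = clI f I + clI f J := by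
  have hIJ : I * J ≠ ⊥ := mul_ne_zero hI hJ
  rw [clI_eq f hI, clI_eq f hJ, clI_eq f hIJ, ← ofMul_mul, ← map_mul]
  rfl

theorem clI_zero {I : Ideal (Q F f)} (hI : I ≠ ⊥) : clI f I = 0 ↔ I.IsPrincipal := by
  rw [clI_eq f hI, ofMul_eq_zero, ClassGroup.mk0_eq_one_iff]

theorem clI_same {I J : Ideal (Q F f)} (hI : I ≠ ⊥) (hJ : J ≠ ⊥) (h : clI f I = clI f J) :
    SameCl I J := by
  rw [clI_eq f hI, clI_eq f hJ] at h
  have h1 := Additive.ofMul.injective h
  rw [ClassGroup.mk0_eq_mk0_iff] at h1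
  obtain ⟨x, y, hx, hy, hxy⟩ := h1
  exact ⟨x, y, hx, hy, hxy⟩

omit [Fact (Odd f.natDegree)] [IsDedekindDomain (Q F f)] in
theorem dvd_pt (z : Pt f) : (X - C z.a) ∣ (C z.b) ^ 2 - f := by
  rw [dvd_iff_isRoot, IsRoot.def, eval_sub, eval_pow, eval_C, z.on, sub_self]

omit [Fact (Odd f.natDegree)] [IsDedekindDomain (Q F f)] in
theorem mum_pt (z : Pt f) : Mum f (X - C z.a) (C z.b) where
  monic := monic_X_sub_C _
  deg := by
    rw [degree_X_sub_C]
    exact degree_C_le.trans_lt (by norm_num)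
  dvd := dvd_pt f z

theorem mum_one : Mum f 1 0 where
  monic := monic_one
  deg := by
    rw [degree_zero, degree_one]
    exact WithBot.bot_lt_coe _
  dvd := one_dvd _

theorem pt_ext {z w : Pt f} (h1 : (X - C z.a : F[X]) = X - C w.a) (h2 : (C z.b : F[X]) = C w.b) :
    z = w := by
  have h3 : z.a = w.a := C_injective (sub_right_injective h1)
  have h4 : z.b = w.b := C_injective h2
  cases z
  cases w
  simp only at h3 h4
  subst h3
  subst h4
  rfl

end cl

end Jga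

open Jga in
/-- **Row JGA.** -/
theorem zjga (hMii : Pool.Agent.SZT.MiiStatement) (hUnq : Pool.Agent.SZT.UnqStatement)
    (hPai : Pool.Agent.SZT.PaiStatement) : JgaStatement := by
  intro F _ _ f _ _ hmo h5 hsf
  have h2 : (2 : F) ≠ 0 := two_ne_zero
  have hd1 : ∀ z : Pt f, (X - C z.a : F[X]).natDegree ≤ 1 := fun z => (natDegree_X_sub_C _).le
  refine ⟨?_, ?_, ?_, ?_⟩
  · intro z
    rw [eq_neg_iff_add_eq_zero, add_comm]
    unfold thC
    rw [← clI_mul f (mi_ne f _ _) (mi_ne f _ _),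
      clI_zero f (mul_ne_zero (mi_ne f _ _) (mi_ne f _ _))]
    have h3 := hMii F f (X - C z.a) (C z.b) h2 hsf (dvd_pt f z)
    have h4 : MI f (X - C z.neg.a) (C z.neg.b) = MI f (X - C z.a) (-(C z.b)) := by
      rw [← C_neg]
      rfl
    rw [h4, h3]
    exact ⟨⟨_, rfl⟩⟩
  · intro z h
    unfold thC at h
    have h3 : MI f (1 : F[X]) 0 = ⊤ := by
      rw [Ideal.eq_top_iff_one]
      exact Ideal.subset_span (by left; rfl)
    have h4 : clI f (MI f (1 : F[X]) 0) = 0 := by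
      rw [clI_zero f (mi_ne f _ _), h3]
      infer_instance
    have h5' := hUnq F f _ _ _ _ h2 hsf h5 (mum_pt f z) (mum_one f) ((hd1 z).trans one_le_two)
      (by rw [natDegree_one]; exact Nat.zero_le _)
      (clI_same f (mi_ne f _ _) (mi_ne f _ _) (h.trans h4.symm))
    have h6 := congrArg natDegree h5'.1
    rw [natDegree_X_sub_C, natDegree_one] at h6
    exact one_ne_zero h6
  · intro z w h
    unfold thC at h
    have h3 := hUnq F f _ _ _ _ h2 hsf h5 (mum_pt f z) (mum_pt f w) ((hd1 z).trans one_le_two)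
      ((hd1 w).trans one_le_two) (clI_same f (mi_ne f _ _) (mi_ne f _ _) h)
    exact pt_ext f h3.1 h3.2
  · intro z w z' w' h h0
    unfold thC at h h0
    rw [← clI_mul f (mi_ne f _ _) (mi_ne f _ _)] at h h0
    rw [← clI_mul f (mi_ne f _ _) (mi_ne f _ _)] at h
    have h3 := hPai F f _ _ _ _ _ _ _ _ h2 hsf h5 (mum_pt f z) (mum_pt f w) (mum_pt f z')
      (mum_pt f w') (hd1 z) (hd1 w) (hd1 z') (hd1 w')
      (fun hp => h0 ((clI_zero f (mul_ne_zero (mi_ne f _ _) (mi_ne f _ _))).2 hp))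
      (clI_same f (mul_ne_zero (mi_ne f _ _) (mi_ne f _ _))
        (mul_ne_zero (mi_ne f _ _) (mi_ne f _ _)) h)
    rcases h3 with ⟨e1, e2, e3, e4⟩ | ⟨e1, e2, e3, e4⟩
    · exact Or.inl ⟨pt_ext f e1 e2, pt_ext f e3 e4⟩
    · exact Or.inr ⟨pt_ext f e1 e2, pt_ext f e3 e4⟩

end Pool.Agent.KDT.H37
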